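import Mathlib
import Pool.Agent.X15.ML.Ext
import Pool.Agent.TH444.ML.Done

/-!
# Malle's conjecture for `C₂ ≀ X` is equivalent to the inverse Galois problem for a quotient of `X`

`X` is a finite group acting on itself by multiplication, and `G = C₂ ≀ X` acts on `X × {0, 1}`.
`K` is a number field and `p : X → Γ` an epimorphism of finite groups in the class `Cls K`
(file `Pool/Agent/TH444/TW/ClsDef.lean`), the smallest class which contains the epimorphisms

* with a section and with abelian kernel,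
* `A^k ⋊ Γ → Γ`, `A` the group of a regular Galois extension of `K(t)`, `Γ` acting through any
  homomorphism `Γ → A ≀ S_k`,
* `(B ≀ S_n)^k ⋊ Γ → Γ`, `B` any finite group, `n ≥ ((3 |B| + 2)!)^3`, `Γ` acting through any
  homomorphism `Γ → Aut(B) ≀ S_k`,
* with kernel isomorphic to a direct product of groups `B_i ≀ S_(n_i)`, `B_i` a nontrivial finite
  group with trivial centre and with `Inn B_i` complemented in `Aut B_i`,
  `n_i ≥ ((3 |B_i| + 2)!)^3`, split or not,

and which is closed under composition and under quotients. If `X` has a subgroup `U` which contains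
no nontrivial normal subgroup of `X` and with `8 u (u + 1) ≤ |X|`, `u` its index, then Malle's
conjecture (weak form and asymptotic formula) holds over `K` for `G` if and only if `Γ` is a Galois
group over `K`. The condition on `X` holds if the kernel of `p` is `B ≀ S_n` for a finite group `B`
and `n ≥ 128 (|Γ| |B|)^2 + 3`.
-/

set_option autoImplicit false

open Filter
open Nfff32c05
open Pool.Agent.H391R2 (Wr)
open Pool.Agent.TH444.TW (Cls)

namespace Pool.Agent.Results.MP_af4c59_nt.ClassExtensions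

/-- `G ≤ S_d` is, up to a bijection `f` of `{1, ..., d}` with `X × {0, 1}`, the wreath product
`C₂ ≀ X`: it consists of all permutations `π` for which there is `h ∈ X` such that `π` maps the block
`{x} × {0, 1}` to the block `{h x} × {0, 1}`, for all `x ∈ X`. -/
def IsC2Wreath (X : Type) [Group X] {d : ℕ} (G : Subgroup (Equiv.Perm (Fin d))) : Prop :=
  ∃ f : Fin d ≃ X × Bool, ∀ π : Equiv.Perm (Fin d), π ∈ G ↔ ∃ h : X, ∀ i, (f (π i)).1 = h * (f i).1

/-- The index of a permutation: `d` minus the number of its cycles, fixed points included. -/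
def ind {d : ℕ} (g : Equiv.Perm (Fin d)) : ℕ := g.cycleType.sum - Multiset.card g.cycleType

/-- `a(G) = 1 / min ind(g)`, the minimum over the `g ≠ 1` in `G`. -/
noncomputable def a {d : ℕ} (G : Subgroup (Equiv.Perm (Fin d))) : ℝ :=
  1 / (sInf {j : ℕ | ∃ g ∈ G, g ≠ 1 ∧ j = ind g} : ℕ)

/-- `N_{d,K}(Y; G)`: the number of fields `L` between `K` and its algebraic closure, of degree `d`
over `K`, whose Galois group, acting on the embeddings, is `G` (up to numbering), and whose relative
discriminant has norm at most `Y` (that is, `|d_L| ≤ Y |d_K| ^ d`). -/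
noncomputable def N (K : Type) [Field K] [NumberField K] (d : ℕ)
    (G : Subgroup (Equiv.Perm (Fin d))) (Y : ℝ) : ℕ :=
  Set.ncard {L : IntermediateField K (AlgebraicClosure K) |
    Module.finrank K L = d ∧
    (∃ e : (L →ₐ[K] AlgebraicClosure K) ≃ Fin d, ∀ π : Equiv.Perm (Fin d),
      π ∈ G ↔ ∃ σ : AlgebraicClosure K ≃ₐ[K] AlgebraicClosure K,
        ∀ φ : L →ₐ[K] AlgebraicClosure K, e (σ.toAlgHom.comp φ) = π (e φ)) ∧
    ∃ h : NumberField L,
      ((|@NumberField.discr L _ h| : ℤ) : ℝ) ≤ Y * ((|NumberField.discr K| : ℤ) : ℝ) ^ d}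

/-- Malle's conjecture for `(K, G)`: the asymptotic formula `N_{d,K}(Y; G) ~ c Y ^ a(G)` (so
`b(K, G) = 1`), and the inequalities of the weak form. -/
def Malle (K : Type) [Field K] [NumberField K] (d : ℕ) (G : Subgroup (Equiv.Perm (Fin d))) :
    Prop :=
  (∃ c : ℝ, 0 < c ∧ Tendsto (fun Y : ℝ => (N K d G Y : ℝ) / Y ^ a G) atTop (nhds c)) ∧
  (∃ c₁ : ℝ, 0 < c₁ ∧ ∃ Y₀ : ℝ, ∀ Y : ℝ, Y₀ ≤ Y → c₁ * Y ^ a G ≤ N K d G Y) ∧
  (∀ ε : ℝ, 0 < ε → ∃ c₂ : ℝ, 0 < c₂ ∧ ∃ Y₀ : ℝ, ∀ Y : ℝ, Y₀ ≤ Y →
    (N K d G Y : ℝ) < c₂ * Y ^ (a G + ε))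

/-- Malle's conjecture over `K` for all subgroups of symmetric groups of the form `C₂ ≀ X`, `X` in
its regular action. -/
def MalleOrderTwo (K : Type) [Field K] [NumberField K] (X : Type) [Group X] : Prop :=
  ∀ (d : ℕ) (G : Subgroup (Equiv.Perm (Fin d))), IsC2Wreath X G → Malle K d G

/-- `X` has a subgroup `U` of index `u` with `8 u (u + 1) ≤ |X|` which contains no nontrivial normal
subgroup of `X` (equivalently: a faithful transitive action on `u` points). -/
def SmallAction (X : Type) [Group X] : Prop :=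
  ∃ U : Subgroup X, U.normalCore = ⊥ ∧ 8 * U.index * (U.index + 1) ≤ Nat.card X

theorem a_eq {X : Type} [Group X] [Finite X] {d : ℕ} {G : Subgroup (Equiv.Perm (Fin d))}
    (hG : IsC2Wreath X G) : a G = 1 := by
  have h := Pool.Agent.TH444.ML.least_ind (H := X) hG
  have h2 : sInf {j : ℕ | ∃ g ∈ G, g ≠ 1 ∧ j = ind g} = 1 := h.csInf_eq
  unfold a
  rw [h2]
  simp

theorem of_data (K : Type) [Field K] [NumberField K] (X : Type) [Group X] [Finite X]
    (hX : SmallAction X)
    (hne : (Pool.Agent.TH444.ML.Gal K (AlgebraicClosure K) X).Nonempty) :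
    MalleOrderTwo K X := by
  intro d G hG
  obtain ⟨U, hU, hc⟩ := hX
  have h2 : 2 ≤ Nat.card X := by
    have h1 : 1 ≤ U.index := Nat.one_le_iff_ne_zero.2 Subgroup.FiniteIndex.index_ne_zero
    nlinarith
  obtain ⟨-, c, hc0, hlim⟩ :=
    Pool.Agent.TH444.ML.asymp Pool.Agent.TH444.ML.rest K X h2 U hU hc hne G hG
  have ha := a_eq hG
  unfold Malle
  rw [ha]
  have hlim' : Tendsto (fun Y : ℝ => (N K d G Y : ℝ) / Y) atTop (nhds c) := hlim
  refine ⟨⟨c, hc0, by simpa using hlim'⟩, ⟨c / 2, by positivity, ?_⟩, ?_⟩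
  · have h := (hlim'.eventually (lt_mem_nhds (by linarith : c / 2 < c))).and
      (eventually_gt_atTop (0 : ℝ))
    obtain ⟨X₀, hX₀⟩ := eventually_atTop.1 h
    refine ⟨X₀, fun X hX => ?_⟩
    obtain ⟨h3, h4⟩ := hX₀ X hX
    rw [lt_div_iff₀ h4] at h3
    rw [Real.rpow_one]
    exact h3.le
  · intro ε hε
    refine ⟨2 * c, by positivity, ?_⟩
    have h := (hlim'.eventually (gt_mem_nhds (by linarith : c < 2 * c))).and
      (eventually_ge_atTop (1 : ℝ))
    obtain ⟨X₀, hX₀⟩ := eventually_atTop.1 h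
    refine ⟨X₀, fun X hX => ?_⟩
    obtain ⟨h3, h4⟩ := hX₀ X hX
    have h5 : (0 : ℝ) < X := by linarith
    rw [div_lt_iff₀ h5] at h3
    refine h3.trans_le ?_
    apply mul_le_mul_of_nonneg_left _ (by positivity)
    calc X = X ^ (1 : ℝ) := (Real.rpow_one X).symm
      _ ≤ X ^ (1 + ε) := Real.rpow_le_rpow_of_exponent_le h4 (by linarith)

theorem real_of_malle (K : Type) [Field K] [NumberField K] (X : Type) [Group X] [Finite X]
    (h : MalleOrderTwo K X) : IsRealizable K X := by
  let f : Fin (Nat.card (X × Bool)) ≃ X × Bool := (Finite.equivFin (X × Bool)).symm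
  have hG : IsC2Wreath X (Pool.Agent.X15.ML.wrG f) := ⟨f, fun π => Iff.rfl⟩
  obtain ⟨c₁, hc₁, Y₀, hY⟩ := (h _ _ hG).2.1
  have h1 := hY (max Y₀ 1) (le_max_left _ _)
  have h2 : 0 < c₁ * (max Y₀ 1) ^ a (Pool.Agent.X15.ML.wrG f) :=
    mul_pos hc₁ (Real.rpow_pos_of_pos (lt_of_lt_of_le one_pos (le_max_right _ _)) _)
  have h3 : 0 < N K (Nat.card (X × Bool)) (Pool.Agent.X15.ML.wrG f) (max Y₀ 1) := by
    exact_mod_cast h2.trans_le h1
  obtain ⟨L, hL1, ⟨e, he⟩, -⟩ := Set.nonempty_of_ncard_ne_zero h3.ne'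
  have hd : 0 < Module.finrank K L := by
    rw [hL1]
    exact Nat.card_pos
  have hfd : FiniteDimensional K L := Module.finite_of_finrank_pos hd
  exact Pool.Agent.X15.ML.real_of_field K X L f e he

/-- the equivalence -/
theorem main (K Γ X : Type) [Field K] [NumberField K] [Group Γ] [Finite Γ] [Group X]
    (p : X →* Γ) (hp : Cls K p) (hX : SmallAction X) : MalleOrderTwo K X ↔ IsRealizable K Γ := by
  have hf : Finite X := hp.finite
  constructor
  · intro h
    exact Pool.Agent.X15.ML.real_quot K X Γ p (Pool.Agent.X15.ML.cls_surj hp)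
      (real_of_malle K X h)
  · intro h
    exact of_data K X hX (Pool.Agent.X15.ML.gal_of_cls K Γ X p hp h)

end Pool.Agent.Results.MP_af4c59_nt.ClassExtensions

open Pool.Agent.Results.MP_af4c59_nt.ClassExtensions in
/-- Let `K` be a number field and `p : X → Γ` an epimorphism of finite groups in the class `Cls K`.

(1) If `X` has a small action then Malle's conjecture holds over `K` for `C₂ ≀ X` if and only if `Γ`
is a Galois group over `K`.

(2) The same without assumption on actions if the kernel of `p` is isomorphic to `B ≀ S_n` for some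
finite group `B`, and `n ≥ 128 (|Γ| |B|)^2 + 3`.

(3) Let `B` be a nontrivial finite group with trivial centre such that the inner automorphisms of `B`
have a complement in `Aut B` (for example a complete group), and let `X` be any extension, split or
not, of a finite group `Γ` by `B ≀ S_n`, where `n ≥ ((3 |B| + 2)!)^3` and
`n ≥ 128 (|Γ| |B|)^2 + 3`. Malle's conjecture holds over `K` for `C₂ ≀ X` if and only if `Γ` is a
Galois group over `K`. -/
theorem Pool.Agent.Results.MP_af4c59_nt.ClassExtensions.result :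
    (∀ (K Γ X : Type) [Field K] [NumberField K] [Group Γ] [Finite Γ] [Group X] (p : X →* Γ),
      Cls K p → SmallAction X → (MalleOrderTwo K X ↔ IsRealizable K Γ)) ∧
    (∀ (K Γ X B : Type) [Field K] [NumberField K] [Group Γ] [Finite Γ] [Group X] [Group B]
      [Finite B] (n : ℕ) (p : X →* Γ), Cls K p → Nonempty (p.ker ≃* Wr B n) →
      128 * (Nat.card Γ * Nat.card B) ^ 2 + 3 ≤ n → (MalleOrderTwo K X ↔ IsRealizable K Γ)) ∧
    (∀ (B : Type) [Group B] [Finite B] [Nontrivial B], Subgroup.center B = ⊥ →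
      (∃ T : Subgroup (MulAut B), IsCompl T (MulAut.conj : B →* MulAut B).range) →
      ∀ (K Γ X : Type) [Field K] [NumberField K] [Group Γ] [Finite Γ] [Group X] (n : ℕ)
        (p : X →* Γ), Function.Surjective p → Nonempty (p.ker ≃* Wr B n) →
        ((3 * Nat.card B + 2).factorial) ^ 3 ≤ n →
        128 * (Nat.card Γ * Nat.card B) ^ 2 + 3 ≤ n →
        (MalleOrderTwo K X ↔ IsRealizable K Γ)) := by
  have h2 : ∀ (K Γ X B : Type) [Field K] [NumberField K] [Group Γ] [Finite Γ] [Group X] [Group B]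
      [Finite B] (n : ℕ) (p : X →* Γ), Cls K p → Nonempty (p.ker ≃* Wr B n) →
      128 * (Nat.card Γ * Nat.card B) ^ 2 + 3 ≤ n → (MalleOrderTwo K X ↔ IsRealizable K Γ) := by
    intro K Γ X B _ _ _ _ _ _ _ n p hp he hn
    obtain ⟨e⟩ := he
    exact main K Γ X p hp
      (Pool.Agent.X15.ML.small_ext Γ X B n hn p (Pool.Agent.X15.ML.cls_surj hp) e)
  refine ⟨fun K Γ X _ _ _ _ _ p hp hX => main K Γ X p hp hX, h2, ?_⟩
  intro B _ _ _ hZ hT K Γ X _ _ _ _ _ n p hs he hn1 hn2
  have he' : Nonempty (p.ker ≃* Wr B n) := he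
  obtain ⟨e⟩ := he'
  exact h2 K Γ X B n p (Cls.kernel p hs Unit (fun _ => B) (fun _ => hZ) (fun _ => hT)
    (fun _ => n) (fun _ => hn1) ⟨e.trans (MulEquiv.funUnique Unit (Wr B n)).symm⟩) he hn2
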