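import Pool.Agent.X308.W.Final

/-!
# The upper half of the weak form of Malle's conjecture: from `ℚ` to all number fields, uniformly

First part: let `A ≤ S_m` and let `G ≤ S_n` be transitive, `m ≥ 1`, `n ≥ 2`. Suppose that the upper
half of the weak form of Malle's conjecture holds over `ℚ` for all transitive subgroups `H` of the
wreath product `G ≀ A ≤ S_{mn}`. Then for every `ε > 0` there is a constant `C` such that for all
`X ≥ 1`

* `N_{n,K}(X; G) ≤ C (X |d_K| ^ n) ^ (a(G) + ε)` for all number fields `K` of degree `m` with group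
  `A` (the constant does not depend on `K`), and
* the number of towers `ℚ ⊆ K ⊆ L` with group `A` of `K` over `ℚ`, group `G` of `L` over `K` and
  `|d_L| ≤ X` is at most `C X ^ (a(G) + ε)` (the sum over all `K`).

Second part: the upper half over `ℚ` for all transitive groups implies the upper half over all number
fields for all transitive groups.
-/

set_option autoImplicit false

namespace Pool.Agent.Results.MP_af4c59_nt.UniformUpperHalf

open Pool.Agent.X308.W

theorem result :
    (∀ (m n : ℕ) (A : Subgroup (Equiv.Perm (Fin m))) (G : Subgroup (Equiv.Perm (Fin n))),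
      1 ≤ m → 2 ≤ n → Transitive G →
      (∀ H : Subgroup (Equiv.Perm (Fin (m * n))), Transitive H → InWreath A G H →
        UpperHalf ℚ H) →
      ∀ ε : ℝ, 0 < ε → ∃ C : ℝ, 0 ≤ C ∧
        (∀ (K : Type) [Field K] [NumberField K], Module.finrank ℚ K = m →
          HasGroup ℚ K (AlgebraicClosure ℚ) A → ∀ X : ℝ, 1 ≤ X →
            (fields K G X).Finite ∧
            (N K G X : ℝ) ≤ C * (X * ((|NumberField.discr K| : ℤ) : ℝ) ^ n) ^ (a G + ε)) ∧
        ∀ X : ℝ, 1 ≤ X → (towers A G X).Finite ∧
          ((towers A G X).ncard : ℝ) ≤ C * X ^ (a G + ε)) ∧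
    ((∀ (d : ℕ) (H : Subgroup (Equiv.Perm (Fin d))), 2 ≤ d → Transitive H → UpperHalf ℚ H) →
      ∀ (K : Type) [Field K] [NumberField K] (n : ℕ) (G : Subgroup (Equiv.Perm (Fin n))),
        2 ≤ n → Transitive G → UpperHalf K G) :=
  ⟨fun _ _ _ _ hm hn hG h _ hε => uniform hn hm hG h hε,
    fun h K _ _ _ _ hn hG => allFields h K hn hG⟩

end Pool.Agent.Results.MP_af4c59_nt.UniformUpperHalf
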