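import Mathlib
import Pool.Agent.X257.MQ.Core

/-!
# The weak form of Malle's conjecture for `C₂ ≀ H` and the inverse Galois problem for `H`

`H` is a finite group with a subgroup `U` which contains no nontrivial normal subgroup of `H` and
with `8 u (u + 1) ≤ |H|`, `u` the index of `U`. The group `H` acts on itself by multiplication, and
`G = C₂ ≀ H` acts on `H × {0, 1}`. Over every number field `K` the weak form of Malle's conjecture
holds for `G` if and only if `H` is a Galois group over `K`; there is a number field `K₀` such that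
it holds over all number fields `K ⊇ K₀`.

The groups `H = B × (A ≀ S_m)`, `A`, `B` any finite groups and `m` large, have this property, and are
Galois groups over `K` if and only if `B` is.
-/

set_option autoImplicit false

open Filter

namespace Pool.Agent.Results.MP_af4c59_nt.WreathProductsInverseGalois

/-- `G ≤ S_d` is, up to a bijection `f` of `{1, ..., d}` with `H × {0, 1}`, the wreath product
`C₂ ≀ H`: it consists of all permutations `π` for which there is `h ∈ H` such that `π` maps the block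
`{x} × {0, 1}` to the block `{h x} × {0, 1}`, for all `x ∈ H`. -/
def IsC2Wreath (H : Type) [Group H] {d : ℕ} (G : Subgroup (Equiv.Perm (Fin d))) : Prop :=
  ∃ f : Fin d ≃ H × Bool, ∀ π : Equiv.Perm (Fin d), π ∈ G ↔ ∃ h : H, ∀ i, (f (π i)).1 = h * (f i).1

/-- `H` has a faithful transitive action on `u` points (the cosets of `U`), `8 u (u + 1) ≤ |H|`. -/
def HasSmallAction (H : Type) [Group H] : Prop :=
  ∃ U : Subgroup H, U.normalCore = ⊥ ∧ 8 * U.index * (U.index + 1) ≤ Nat.card H

/-- `H` is a Galois group over `K`. -/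
def IsGaloisGroupOver (K : Type) [Field K] (H : Type) [Group H] : Prop :=
  ∃ F : IntermediateField K (AlgebraicClosure K), FiniteDimensional K F ∧ IsGalois K F ∧
    Nonempty ((F ≃ₐ[K] F) ≃* H)

/-- The wreath product `A ≀ S_m = A^m ⋊ S_m`. -/
abbrev Wreath (A : Type) [Group A] (m : ℕ) : Type :=
  (Fin m → A) ⋊[mulAutArrow] Equiv.Perm (Fin m)

/-- The index of a permutation: `d` minus the number of its cycles, fixed points included. -/
def ind {d : ℕ} (g : Equiv.Perm (Fin d)) : ℕ := d - Multiset.card g.partition.parts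

/-- `a(G) = 1 / min ind(g)`, the minimum over the `g ≠ 1` in `G`. -/
noncomputable def a {d : ℕ} (G : Subgroup (Equiv.Perm (Fin d))) : ℝ :=
  1 / (sInf {j : ℕ | ∃ g ∈ G, g ≠ 1 ∧ j = ind g} : ℕ)

/-- `N_{d,K}(X; G)`: the number of fields `L` between `K` and its algebraic closure, of degree `d`
over `K`, whose Galois group, acting on the embeddings, is `G` (up to numbering), and whose relative
discriminant has norm at most `X` (that is, `|d_L| ≤ X |d_K| ^ d`). -/
noncomputable def N (K : Type) [Field K] [NumberField K] (d : ℕ)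
    (G : Subgroup (Equiv.Perm (Fin d))) (X : ℝ) : ℕ :=
  Set.ncard {L : IntermediateField K (AlgebraicClosure K) |
    Module.finrank K L = d ∧
    (∃ e : (L →ₐ[K] AlgebraicClosure K) ≃ Fin d, ∀ π : Equiv.Perm (Fin d),
      π ∈ G ↔ ∃ σ : AlgebraicClosure K ≃ₐ[K] AlgebraicClosure K,
        ∀ φ : L →ₐ[K] AlgebraicClosure K, e (σ.toAlgHom.comp φ) = π (e φ)) ∧
    ∃ h : NumberField L,
      ((|@NumberField.discr L _ h| : ℤ) : ℝ) ≤ X * ((|NumberField.discr K| : ℤ) : ℝ) ^ d}

/-- The weak form of Malle's conjecture for `(K, G)`. -/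
def WeakMalle (K : Type) [Field K] [NumberField K] (d : ℕ) (G : Subgroup (Equiv.Perm (Fin d))) :
    Prop :=
  (∃ c₁ : ℝ, 0 < c₁ ∧ ∃ X₀ : ℝ, ∀ X : ℝ, X₀ ≤ X → c₁ * X ^ a G ≤ N K d G X) ∧
  (∀ ε : ℝ, 0 < ε → ∃ c₂ : ℝ, 0 < c₂ ∧ ∃ X₀ : ℝ, ∀ X : ℝ, X₀ ≤ X →
    (N K d G X : ℝ) < c₂ * X ^ (a G + ε))

/-- The group `C₂ ≀ H` exists, and is transitive. -/
theorem exists_group (H : Type) [Group H] [Finite H] : ∃ (d : ℕ)
    (G : Subgroup (Equiv.Perm (Fin d))), d = 2 * Nat.card H ∧ IsC2Wreath H G ∧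
      ∀ i j : Fin d, ∃ g ∈ G, g i = j := by
  have hcard : Nat.card (H × Bool) = 2 * Nat.card H := by
    rw [Nat.card_prod, mul_comm]
    simp
  let f : Fin (2 * Nat.card H) ≃ H × Bool := (Finite.equivFinOfCardEq hcard).symm
  let G : Subgroup (Equiv.Perm (Fin (2 * Nat.card H))) :=
    { carrier := {π | ∃ h : H, ∀ i, (f (π i)).1 = h * (f i).1}
      one_mem' := ⟨1, fun i => by simp⟩
      mul_mem' := by
        rintro π ρ ⟨h, hh⟩ ⟨h', hh'⟩
        refine ⟨h * h', fun i => ?_⟩
        rw [Equiv.Perm.mul_apply, hh, hh', mul_assoc]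
      inv_mem' := by
        rintro π ⟨h, hh⟩
        refine ⟨h⁻¹, fun i => ?_⟩
        have h1 := hh (π⁻¹ i)
        rw [show π (π⁻¹ i) = i from π.apply_symm_apply i] at h1
        rw [h1, inv_mul_cancel_left] }
  refine ⟨2 * Nat.card H, G, rfl, ⟨f, fun π => Iff.rfl⟩, fun i j => ?_⟩
  let t : Equiv.Perm (H × Bool) :=
    (Equiv.mulLeft ((f j).1 * (f i).1⁻¹)).prodCongr (Equiv.swap (f i).2 (f j).2)
  refine ⟨f.trans (t.trans f.symm), ⟨(f j).1 * (f i).1⁻¹, fun x => ?_⟩, ?_⟩
  · simp [t]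
  · change f.symm (t (f i)) = j
    rw [Equiv.symm_apply_eq]
    exact Prod.ext (by simp [t]) (by simp [t])

theorem ind_eq {d : ℕ} (g : Equiv.Perm (Fin d)) : ind g = Pool.Agent.TH444.ML.ind g := by
  have h1 := Pool.Agent.TH444.ML.two_card_le g
  have h2 : g.support.card ≤ d := by
    simpa using Finset.card_le_univ g.support
  unfold ind Pool.Agent.TH444.ML.ind
  rw [Equiv.Perm.parts_partition, Multiset.card_add, Multiset.card_replicate,
    Equiv.Perm.sum_cycleType, Fintype.card_fin]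
  rw [Equiv.Perm.sum_cycleType] at h1
  omega

theorem a_eq {H : Type} [Group H] [Finite H] {d : ℕ} {G : Subgroup (Equiv.Perm (Fin d))}
    (hG : IsC2Wreath H G) : a G = 1 := by
  have h := Pool.Agent.TH444.ML.least_ind (H := H) hG
  have h1 : {k : ℕ | ∃ g ∈ G, g ≠ 1 ∧ k = ind g} =
      {k : ℕ | ∃ g ∈ G, g ≠ 1 ∧ k = Pool.Agent.TH444.ML.ind g} := by
    simp only [ind_eq]
  have h2 : sInf {j : ℕ | ∃ g ∈ G, g ≠ 1 ∧ j = ind g} = 1 := by
    rw [h1]
    exact h.csInf_eq
  unfold a
  rw [h2]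
  simp

theorem weak_of_lim {K : Type} [Field K] [NumberField K] {d : ℕ}
    {G : Subgroup (Equiv.Perm (Fin d))} (ha : a G = 1) {c : ℝ} (hc0 : 0 < c)
    (hlim : Tendsto (fun X : ℝ => (N K d G X : ℝ) / X) atTop (nhds c)) : WeakMalle K d G := by
  unfold WeakMalle
  rw [ha]
  refine ⟨⟨c / 2, by positivity, ?_⟩, ?_⟩
  · have h := (hlim.eventually (lt_mem_nhds (by linarith : c / 2 < c))).and
      (eventually_gt_atTop (0 : ℝ))
    obtain ⟨X₀, hX₀⟩ := eventually_atTop.1 h
    refine ⟨X₀, fun X hX => ?_⟩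
    obtain ⟨h3, h4⟩ := hX₀ X hX
    rw [lt_div_iff₀ h4] at h3
    rw [Real.rpow_one]
    exact h3.le
  · intro ε hε
    refine ⟨2 * c, by positivity, ?_⟩
    have h := (hlim.eventually (gt_mem_nhds (by linarith : c < 2 * c))).and
      (eventually_ge_atTop (1 : ℝ))
    obtain ⟨X₀, hX₀⟩ := eventually_atTop.1 h
    refine ⟨X₀, fun X hX => ?_⟩
    obtain ⟨h3, h4⟩ := hX₀ X hX
    have h5 : (0 : ℝ) < X := by linarith
    rw [div_lt_iff₀ h5] at h3
    refine h3.trans_le ?_
    apply mul_le_mul_of_nonneg_left _ (by positivity)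
    calc X = X ^ (1 : ℝ) := (Real.rpow_one X).symm
      _ ≤ X ^ (1 + ε) := Real.rpow_le_rpow_of_exponent_le h4 (by linarith)

theorem tfae (K : Type) [Field K] [NumberField K] (H : Type) [Group H] [Finite H]
    (hH : HasSmallAction H) {d : ℕ} {G : Subgroup (Equiv.Perm (Fin d))} (hG : IsC2Wreath H G) :
    List.TFAE [IsGaloisGroupOver K H, WeakMalle K d G, ∃ X : ℝ, N K d G X ≠ 0,
      ∃ c : ℝ, 0 < c ∧ Tendsto (fun X : ℝ => (N K d G X : ℝ) / X) atTop (nhds c)] := by
  obtain ⟨U, hU, hc⟩ := hH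
  have h2 := Pool.Agent.X257.MQ.two_le_of_small hc
  tfae_have 1 → 4 := by
    intro h
    obtain ⟨-, c, hc0, hlim⟩ :=
      Pool.Agent.TH444.ML.asymp Pool.Agent.TH444.ML.rest K H h2 U hU hc h G hG
    exact ⟨c, hc0, hlim⟩
  tfae_have 4 → 2 := by
    rintro ⟨c, hc0, hlim⟩
    exact weak_of_lim (a_eq hG) hc0 hlim
  tfae_have 2 → 3 := by
    rintro ⟨⟨c₁, h3, X₀, h4⟩, -⟩
    refine ⟨max X₀ 1, fun h5 => ?_⟩
    have h6 := h4 (max X₀ 1) (le_max_left _ _)
    rw [h5, Nat.cast_zero] at h6
    have h7 : (0 : ℝ) < max X₀ 1 := lt_max_of_lt_right one_pos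
    have h8 : 0 < c₁ * max X₀ 1 ^ a G := mul_pos h3 (Real.rpow_pos_of_pos h7 _)
    linarith
  tfae_have 3 → 1 := by
    rintro ⟨X, hX⟩
    exact Pool.Agent.X257.MQ.gal_of_cnt (H := H) (G := G) hG (X := X)
      (Set.nonempty_of_ncard_ne_zero hX)
  tfae_finish

theorem small_prod (A B : Type) [Group A] [Finite A] [Group B] [Finite B] (m : ℕ)
    (hm : ((3 * Nat.card A + 2).factorial) ^ 3 ≤ m) (hB : Nat.card B ≤ m) :
    HasSmallAction (B × Wreath A m) :=
  Pool.Agent.X257.MQ.prod_small A B m hm hB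

theorem gal_iff (K A B : Type) [Field K] [NumberField K] [Group A] [Finite A] [Group B] [Finite B]
    (m : ℕ) (hm : ((3 * Nat.card A + 2).factorial) ^ 3 ≤ m) :
    IsGaloisGroupOver K (B × Wreath A m) ↔ IsGaloisGroupOver K B :=
  ⟨fun h => Pool.Agent.X257.MQ.gal_quot (MonoidHom.fst B (Wreath A m))
    (fun b => ⟨(b, 1), rfl⟩) h, fun h => Pool.Agent.X257.MQ.gal_prod K A B m hm h⟩

end Pool.Agent.Results.MP_af4c59_nt.WreathProductsInverseGalois

open Pool.Agent.Results.MP_af4c59_nt.WreathProductsInverseGalois in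
/-- **The weak form of Malle's conjecture for `C₂ ≀ H` and the inverse Galois problem.**

1. `H` is any finite group with a faithful transitive action on `u` points, `8 u (u + 1) ≤ |H|`, and
`G = C₂ ≀ H` (which exists, is transitive, and has `a(G) = 1`). Over every number field `K` the weak
form of Malle's conjecture holds for `G` if and only if `H` is a Galois group over `K`, and then
`N(X) ~ c X` for some `c > 0`; otherwise `N(X) = 0` for all `X`. There is a number field `K₀` such that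
the conjecture holds for `G` over all number fields `K ⊇ K₀`.
2. This applies to `H = B × (A ≀ S_m)` for all finite groups `A`, `B` and all `m ≥ |B|`,
`m ≥ ((3 |A| + 2)!) ^ 3`; and `H` is a Galois group over `K` if and only if `B` is.
3. Over every number field `K`, the conjecture for all the groups in 1. is equivalent to the inverse
Galois problem over `K`. -/
theorem Pool.Agent.Results.MP_af4c59_nt.WreathProductsInverseGalois.result :
    (∀ (H : Type) [Group H] [Finite H], HasSmallAction H →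
      (∃ (d : ℕ) (G : Subgroup (Equiv.Perm (Fin d))), d = 2 * Nat.card H ∧ IsC2Wreath H G ∧
        ∀ i j : Fin d, ∃ g ∈ G, g i = j) ∧
      ∀ (d : ℕ) (G : Subgroup (Equiv.Perm (Fin d))), IsC2Wreath H G → a G = 1 ∧
        (∀ (K : Type) [Field K] [NumberField K],
          List.TFAE [IsGaloisGroupOver K H, WeakMalle K d G, ∃ X : ℝ, N K d G X ≠ 0,
            ∃ c : ℝ, 0 < c ∧ Tendsto (fun X : ℝ => (N K d G X : ℝ) / X) atTop (nhds c)]) ∧
        ∃ (K₀ : Type) (_ : Field K₀), NumberField K₀ ∧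
          ∀ (K : Type) [Field K] [NumberField K] [Algebra K₀ K], WeakMalle K d G) ∧
    (∀ (A B : Type) [Group A] [Finite A] [Group B] [Finite B] (m : ℕ),
      ((3 * Nat.card A + 2).factorial) ^ 3 ≤ m → Nat.card B ≤ m →
        HasSmallAction (B × Wreath A m) ∧ ∀ (K : Type) [Field K] [NumberField K],
          (IsGaloisGroupOver K (B × Wreath A m) ↔ IsGaloisGroupOver K B)) ∧
    (∀ (K : Type) [Field K] [NumberField K],
      (∀ (B : Type) [Group B] [Finite B], IsGaloisGroupOver K B) ↔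
        ∀ (H : Type) [Group H] [Finite H], HasSmallAction H →
          ∀ (d : ℕ) (G : Subgroup (Equiv.Perm (Fin d))), IsC2Wreath H G → WeakMalle K d G) := by
  refine ⟨fun H _ _ hH => ⟨exists_group H, fun d G hG => ⟨a_eq hG, fun K _ _ => tfae K H hH hG,
    ?_⟩⟩, fun A B _ _ _ _ m hm hB => ⟨small_prod A B m hm hB, fun K _ _ => gal_iff K A B m hm⟩,
    fun K _ _ => ⟨fun h H _ _ hH d G hG => ((tfae K H hH hG).out 0 1).1 (h H),
      fun h B _ _ => ?_⟩⟩
  · obtain ⟨K₀, i₀, hK₀, hr⟩ := Pool.Agent.X257.ML.exists_numberField_gal H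
    exact ⟨K₀, i₀, hK₀, fun K _ _ _ => ((tfae K H hH hG).out 0 1).1 (hr K)⟩
  · let m : ℕ := max (((3 * Nat.card Unit + 2).factorial) ^ 3) (Nat.card B)
    have hm : ((3 * Nat.card Unit + 2).factorial) ^ 3 ≤ m := le_max_left _ _
    have hs := small_prod Unit B m hm (le_max_right _ _)
    have h3 : Finite (Wreath Unit m) := Pool.Agent.H391R2.T4.finite_wr Unit m
    obtain ⟨d, G, -, hG, -⟩ := exists_group (B × Wreath Unit m)
    exact (gal_iff K Unit B m hm).1 (((tfae K _ hs hG).out 0 1).2 (h _ hs d G hG))
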